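import Mathlib

/-!
# Admissible matrices of MP_a06539_co: definitions
-/

namespace Pool.Agent.AdmDet

/-- The nonzero entries of a row, read from left to right. -/
noncomputable def nonzeroEntries {n : ℕ} (v : Fin n → ℝ) : List ℝ :=
  (List.ofFn v).filter (fun x => decide (x ≠ 0))

/-- Admissible matrices with `m = n - 1` rows and `m + 1 = n` columns. -/
def Admissible {m : ℕ} (B : Matrix (Fin m) (Fin (m + 1)) ℝ) : Prop :=
  ∀ i, nonzeroEntries (B i) ∈
    ([[1], [-1, 2], [2, -1], [-1, 1, 1], [1, -1, 1], [1, 1, -1]] : List (List ℝ))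

/-- The number of rows with exactly `k` nonzero entries. -/
noncomputable def rowsWith {m : ℕ} (B : Matrix (Fin m) (Fin (m + 1)) ℝ) (k : ℕ) : ℕ :=
  (Finset.univ.filter fun i => (nonzeroEntries (B i)).length = k).card

end Pool.Agent.AdmDet
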