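import Pool.Agent.AdmDet.Strict
import Pool.Agent.AdmDet.Defs

/-!
# Admissible matrices of MP_a06539_co
-/

set_option linter.all false

namespace Pool.Agent.AdmDet

theorem entries_spec {n : ℕ} (v : Fin n → ℝ) :
    ∃ S : List (Fin n), S.Nodup ∧ (∀ t, t ∉ S → v t = 0) ∧ nonzeroEntries v = S.map v := by
  refine ⟨(List.finRange n).filter (fun t => decide (v t ≠ 0)), ?_, ?_, ?_⟩
  · exact (List.nodup_finRange n).filter _
  · intro t ht
    by_contra h
    apply ht
    rw [List.mem_filter]
    exact ⟨List.mem_finRange t, by simpa using h⟩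
  · unfold nonzeroEntries
    rw [List.ofFn_eq_map, List.filter_map]
    rfl

/-- a row of an admissible matrix without its column `j` -/
theorem rowOK {m : ℕ} (v : Fin (m + 1) → ℝ) (j : Fin (m + 1))
    (hv : nonzeroEntries v ∈
      ([[1], [-1, 2], [2, -1], [-1, 1, 1], [1, -1, 1], [1, 1, -1]] : List (List ℝ))) :
    ∃ w : ℝ, RowOK (fun (i : Fin (m + 1)) (t : Fin m) => if i = j.succAbove t then (1 : ℝ) else 0)
      (fun t => v (j.succAbove t)) w ∧
      w ^ 2 = (if (nonzeroEntries v).length = 2 then 4 else 1) *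
        (if (nonzeroEntries v).length = 3 then 3 else 1) := by
  obtain ⟨S, hS, h0, hmap⟩ := entries_spec v
  have hsq3 : (√3) ^ 2 = (3 : ℝ) := Real.sq_sqrt (by norm_num)
  have hone : ∀ a : Fin (m + 1), S = [a] → v a = 1 → RowOK
      (fun (i : Fin (m + 1)) (t : Fin m) => if i = j.succAbove t then (1 : ℝ) else 0)
      (fun t => v (j.succAbove t)) 1 := by
    intro a hSa ha
    refine Or.inl ⟨a, fun t => ?_, rfl⟩
    dsimp only
    by_cases h : a = j.succAbove t
    · rw [if_pos h, ← h, ha]
    · rw [if_neg h]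
      exact h0 _ (by rw [hSa]; simpa using fun e => h e.symm)
  have htwo : ∀ a b : Fin (m + 1), (∀ t, t ∈ S → t = a ∨ t = b) →
      a ≠ b → v a = 2 → v b = -1 → RowOK
      (fun (i : Fin (m + 1)) (t : Fin m) => if i = j.succAbove t then (1 : ℝ) else 0)
      (fun t => v (j.succAbove t)) 2 := by
    intro a b hSab hab ha hb
    refine Or.inr (Or.inl ⟨a, b, hab, fun t => ?_, rfl⟩)
    dsimp only
    by_cases h : a = j.succAbove t
    · have h' : ¬ b = j.succAbove t := fun e => hab (h.trans e.symm)
      rw [if_pos h, if_neg h', ← h, ha]; norm_num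
    · by_cases h' : b = j.succAbove t
      · rw [if_neg h, if_pos h', ← h', hb]; norm_num
      · rw [if_neg h, if_neg h']
        rw [h0 _ (fun hmem => (hSab _ hmem).elim (fun e => h e.symm) (fun e => h' e.symm))]
        norm_num
  have hthree : ∀ a b c : Fin (m + 1), (∀ t, t ∈ S → t = a ∨ t = b ∨ t = c) →
      a ≠ b → a ≠ c → b ≠ c → v a = 1 → v b = 1 → v c = -1 → RowOK
      (fun (i : Fin (m + 1)) (t : Fin m) => if i = j.succAbove t then (1 : ℝ) else 0)
      (fun t => v (j.succAbove t)) (√3) := by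
    intro a b c hSabc hab hac hbc ha hb hc
    refine Or.inr (Or.inr ⟨a, b, c, hab, hac, hbc, fun t => ?_, rfl⟩)
    dsimp only
    by_cases h1 : a = j.succAbove t
    · have h2 : ¬ b = j.succAbove t := fun e => hab (h1.trans e.symm)
      have h3 : ¬ c = j.succAbove t := fun e => hac (h1.trans e.symm)
      rw [if_pos h1, if_neg h2, if_neg h3, ← h1, ha]; norm_num
    · by_cases h2 : b = j.succAbove t
      · have h3 : ¬ c = j.succAbove t := fun e => hbc (h2.trans e.symm)
        rw [if_neg h1, if_pos h2, if_neg h3, ← h2, hb]; norm_num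
      · by_cases h3 : c = j.succAbove t
        · rw [if_neg h1, if_neg h2, if_pos h3, ← h3, hc]; norm_num
        · rw [if_neg h1, if_neg h2, if_neg h3]
          rw [h0 _ (fun hmem => by
            rcases hSabc _ hmem with e | e | e
            · exact h1 e.symm
            · exact h2 e.symm
            · exact h3 e.symm)]
          norm_num
  rw [hmap] at hv ⊢
  simp only [List.mem_cons, List.not_mem_nil, or_false] at hv
  match S, hS, h0, hmap, hv, hone, htwo, hthree with
  | [], _, _, _, hv, _, _, _ => simp at hv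
  | [a], _, _, _, hv, hone, _, _ =>
    refine ⟨1, hone a rfl ?_, by simp⟩
    simpa using hv
  | [a, b], hS, _, _, hv, _, htwo, _ =>
    have hab : a ≠ b := by simpa using hS
    refine ⟨2, ?_, by norm_num⟩
    have hv' : (v a = -1 ∧ v b = 2) ∨ (v a = 2 ∧ v b = -1) := by simpa using hv
    rcases hv' with ⟨h1, h2⟩ | ⟨h1, h2⟩
    · refine htwo b a (fun t ht => ?_) hab.symm h2 h1
      have : t = a ∨ t = b := by simpa using ht
      tauto
    · refine htwo a b (fun t ht => ?_) hab h1 h2
      simpa using ht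
  | [a, b, c], hS, _, _, hv, _, _, hthree =>
    have hS' : (a ≠ b ∧ a ≠ c) ∧ b ≠ c := by simpa using hS
    obtain ⟨⟨hab, hac⟩, hbc⟩ := hS'
    refine ⟨√3, ?_, by rw [hsq3]; norm_num⟩
    have hv' : (v a = -1 ∧ v b = 1 ∧ v c = 1) ∨ (v a = 1 ∧ v b = -1 ∧ v c = 1) ∨
        (v a = 1 ∧ v b = 1 ∧ v c = -1) := by simpa using hv
    rcases hv' with ⟨h1, h2, h3⟩ | ⟨h1, h2, h3⟩ | ⟨h1, h2, h3⟩
    · refine hthree b c a (fun t ht => ?_) hbc hab.symm hac.symm h2 h3 h1
      have : t = a ∨ t = b ∨ t = c := by simpa using ht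
      tauto
    · refine hthree a c b (fun t ht => ?_) hac hab hbc.symm h1 h3 h2
      have : t = a ∨ t = b ∨ t = c := by simpa using ht
      tauto
    · refine hthree a b c (fun t ht => ?_) hab hac hbc h1 h2 h3
      simpa using ht
  | a :: b :: c :: d :: S', _, _, _, hv, _, _, _ => simp at hv

theorem sq_bound (m : ℕ) (B : Matrix (Fin m) (Fin (m + 1)) ℝ) (hB : Admissible B)
    (j : Fin (m + 1)) :
    (B.submatrix id j.succAbove).det ^ 2 ≤ 4 ^ rowsWith B 2 * 3 ^ rowsWith B 3 := by
  choose w hw hw2 using fun i => rowOK (B i) j (hB i)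
  have hgood : Good (fun (i : Fin (m + 1)) (t : Fin m) =>
      if i = j.succAbove t then (1 : ℝ) else 0) := by
    obtain ⟨hP0, hP1, hP2⟩ := P_bounds
    refine ⟨?_, ?_, ?_, ?_⟩
    · intro v t; split_ifs <;> norm_num
    · intro v t; split_ifs <;> norm_num
    · intro v v' t h
      by_cases h1 : v = j.succAbove t
      · have h2 : ¬ v' = j.succAbove t := fun e => h (h1.trans e.symm)
        rw [if_pos h1, if_neg h2]; linarith
      · rw [if_neg h1]
        split_ifs <;> linarith
    · intro v s t hst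
      by_cases h1 : v = j.succAbove s
      · right
        rw [if_neg]
        exact fun e => hst (j.succAbove_right_injective (h1.symm.trans e))
      · left; rw [if_neg h1]
  have h := main m _ (B.submatrix id j.succAbove) w hgood (fun r => hw r)
  have h2 : (B.submatrix id j.succAbove).det ^ 2 ≤ (∏ r, w r) ^ 2 := by
    rw [← sq_abs]
    exact pow_le_pow_left₀ (abs_nonneg _) h 2
  refine h2.trans (le_of_eq ?_)
  rw [← Finset.prod_pow, Finset.prod_congr rfl (fun r _ => hw2 r), Finset.prod_mul_distrib,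
    Finset.prod_ite, Finset.prod_ite]
  simp only [Finset.prod_const, one_pow, mul_one, rowsWith]

theorem length_le {m : ℕ} (v : Fin (m + 1) → ℝ) :
    (if (nonzeroEntries v).length = 2 then 1 else 0) +
      (if (nonzeroEntries v).length = 3 then 1 else 0) ≤ 1 := by
  split_ifs <;> omega

theorem rows_le {m : ℕ} (B : Matrix (Fin m) (Fin (m + 1)) ℝ) :
    rowsWith B 2 + rowsWith B 3 ≤ m := by
  have h : ∑ i : Fin m, ((if (nonzeroEntries (B i)).length = 2 then 1 else 0) +
      (if (nonzeroEntries (B i)).length = 3 then 1 else 0)) ≤ ∑ _i : Fin m, 1 :=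
    Finset.sum_le_sum fun i _ => length_le (B i)
  rw [Finset.sum_add_distrib] at h
  have e2 : rowsWith B 2 = ∑ i : Fin m, if (nonzeroEntries (B i)).length = 2 then 1 else 0 := by
    unfold rowsWith; rw [Finset.card_filter]
  have e3 : rowsWith B 3 = ∑ i : Fin m, if (nonzeroEntries (B i)).length = 3 then 1 else 0 := by
    unfold rowsWith; rw [Finset.card_filter]
  rw [e2, e3]
  refine h.trans (le_of_eq ?_)
  rw [Finset.sum_const, Finset.card_univ, Fintype.card_fin, smul_eq_mul, mul_one]


theorem abs_bound (m : ℕ) (B : Matrix (Fin m) (Fin (m + 1)) ℝ) (hB : Admissible B)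
    (j : Fin (m + 1)) : |(B.submatrix id j.succAbove).det| ≤ 2 ^ m := by
  have h := sq_bound m B hB j
  have h1 : (4 : ℝ) ^ rowsWith B 2 * 3 ^ rowsWith B 3 ≤ 4 ^ rowsWith B 2 * 4 ^ rowsWith B 3 :=
    mul_le_mul_of_nonneg_left (pow_le_pow_left₀ (by norm_num) (by norm_num) _) (by positivity)
  have h2 : (4 : ℝ) ^ rowsWith B 2 * 4 ^ rowsWith B 3 ≤ 4 ^ m := by
    rw [← pow_add]
    exact pow_le_pow_right₀ (by norm_num) (rows_le B)
  have h3 : (4 : ℝ) ^ m = (2 ^ m) ^ 2 := by
    rw [← pow_mul, mul_comm, pow_mul]; norm_num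
  exact abs_le_of_sq_le_sq (by rw [← h3]; exact h.trans (h1.trans h2)) (by positivity)

theorem two_row {m : ℕ} (v : Fin (m + 1) → ℝ)
    (hv : nonzeroEntries v ∈
      ([[1], [-1, 2], [2, -1], [-1, 1, 1], [1, -1, 1], [1, 1, -1]] : List (List ℝ)))
    (h2 : (nonzeroEntries v).length = 2) :
    ∃ a b : Fin (m + 1), a ≠ b ∧ ∀ t, v t = 2 * (if a = t then (1 : ℝ) else 0)
      - (if b = t then 1 else 0) := by
  obtain ⟨S, hS, h0, hmap⟩ := entries_spec v
  rw [hmap] at hv h2
  simp only [List.mem_cons, List.not_mem_nil, or_false] at hv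
  match S, hS, h0, hmap, hv, h2 with
  | [], _, _, _, _, h2 => simp at h2
  | [a], _, _, _, _, h2 => simp at h2
  | a :: b :: c :: S', _, _, _, _, h2 => simp at h2
  | [a, b], hS, h0, _, hv, _ =>
    have hab : a ≠ b := by simpa using hS
    have hv' : (v a = -1 ∧ v b = 2) ∨ (v a = 2 ∧ v b = -1) := by simpa using hv
    rcases hv' with ⟨h1, h2⟩ | ⟨h1, h2⟩
    · refine ⟨b, a, hab.symm, fun t => ?_⟩
      by_cases e1 : b = t
      · rw [if_pos e1, if_neg (fun e => hab (e.trans e1.symm)), ← e1, h2]; norm_num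
      · by_cases e2 : a = t
        · rw [if_neg e1, if_pos e2, ← e2, h1]; norm_num
        · rw [if_neg e1, if_neg e2, h0 t (by simp [Ne.symm e1, Ne.symm e2])]; norm_num
    · refine ⟨a, b, hab, fun t => ?_⟩
      by_cases e1 : a = t
      · rw [if_pos e1, if_neg (fun e => hab (e1.trans e.symm)), ← e1, h1]; norm_num
      · by_cases e2 : b = t
        · rw [if_neg e1, if_pos e2, ← e2, h2]; norm_num
        · rw [if_neg e1, if_neg e2, h0 t (by simp [Ne.symm e1, Ne.symm e2])]; norm_num

theorem equality_iff (m : ℕ) (B : Matrix (Fin m) (Fin (m + 1)) ℝ) (hB : Admissible B)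
    (j : Fin (m + 1)) :
    |(B.submatrix id j.succAbove).det| = 2 ^ m ↔
      ∃ σ τ : Equiv.Perm (Fin m), (∀ r, B (σ r) (j.succAbove (τ r)) = 2) ∧
        ∀ r t, t < r → B (σ r) (j.succAbove (τ t)) = 0 := by
  constructor
  · intro h
    have hsq := sq_bound m B hB j
    have hle := rows_le B
    have e4 : (B.submatrix id j.succAbove).det ^ 2 = 4 ^ m := by
      rw [← sq_abs, h, ← pow_mul, mul_comm, pow_mul]; norm_num
    rw [e4] at hsq
    have h3 : rowsWith B 3 = 0 := by
      by_contra h3
      have h5 : (3 : ℝ) ^ rowsWith B 3 < 4 ^ rowsWith B 3 :=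
        pow_lt_pow_left₀ (by norm_num) (by norm_num) h3
      have h6 : (4 : ℝ) ^ rowsWith B 2 * 3 ^ rowsWith B 3 < 4 ^ rowsWith B 2 * 4 ^ rowsWith B 3 :=
        mul_lt_mul_of_pos_left h5 (by positivity)
      rw [← pow_add] at h6
      have h7 : (4 : ℝ) ^ (rowsWith B 2 + rowsWith B 3) ≤ 4 ^ m :=
        pow_le_pow_right₀ (by norm_num) hle
      linarith
    rw [h3, pow_zero, mul_one] at hsq
    have h2 : m ≤ rowsWith B 2 := by
      by_contra hlt
      push Not at hlt
      have : (4 : ℝ) ^ rowsWith B 2 < 4 ^ m := pow_lt_pow_right₀ (by norm_num) hlt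
      linarith
    have hall : ∀ r, (nonzeroEntries (B r)).length = 2 := by
      have hcard : (Finset.univ.filter fun i => (nonzeroEntries (B i)).length = 2).card =
          (Finset.univ : Finset (Fin m)).card := by
        refine le_antisymm (Finset.card_filter_le _ _) ?_
        rw [Finset.card_univ, Fintype.card_fin]
        exact h2
      have heq := Finset.eq_of_subset_of_card_le (Finset.filter_subset _ _) hcard.ge
      intro r
      have := Finset.mem_univ r
      rw [← heq, Finset.mem_filter] at this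
      exact this.2
    choose a b hab hrow using fun r => two_row (B r) (hB r) (hall r)
    exact equality m (fun t => j.succAbove t) (B.submatrix id j.succAbove) a b
      Fin.succAbove_right_injective hab (fun r t => hrow r _) h
  · rintro ⟨σ, τ, hd, hu⟩
    have h1 : ((B.submatrix id j.succAbove).submatrix σ τ).det = 2 ^ m := by
      rw [Matrix.det_of_upperTriangular]
      · simp [hd]
      · intro r t hrt
        exact hu r t hrt
    rw [← Matrix.abs_det_submatrix_equiv_equiv σ τ, h1, abs_of_pos (by positivity)]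

end Pool.Agent.AdmDet
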