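import Mathlib

/-!
# Determinants of matrices with rows `(2,-1)` and `(1,1,-1)`

Columns of a matrix are merged: the row `x e_p - y e_q` is removed and the columns `p`, `q` are
replaced by `(y/F) col p + (x/F) col q`, which divides the determinant by `F` in absolute value.
-/

set_option linter.all false

namespace Pool.Agent.AdmDet

open Matrix

/-- Hadamard's inequality for real matrices. -/
theorem hadamard {n : ℕ} (D : Matrix (Fin n) (Fin n) ℝ) :
    D.det ^ 2 ≤ ∏ i, ∑ j, D i j ^ 2 := by
  haveI : Fact (Module.finrank ℝ (EuclideanSpace ℝ (Fin n)) = n) := ⟨finrank_euclideanSpace_fin⟩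
  set b := EuclideanSpace.basisFun (Fin n) ℝ with hb
  set o := b.toBasis.orientation with ho
  set v : Fin n → EuclideanSpace ℝ (Fin n) := fun i => WithLp.toLp 2 (fun j => D i j) with hv
  have h1 := o.abs_volumeForm_apply_le v
  rw [o.volumeForm_robust' b, Module.Basis.det_apply] at h1
  have h2 : b.toBasis.toMatrix v = D.transpose := by
    ext i j
    rw [Module.Basis.toMatrix_apply]
    simp [hb, hv]
  rw [h2, Matrix.det_transpose] at h1
  rw [← sq_abs]
  refine (pow_le_pow_left₀ (abs_nonneg _) h1 2).trans (le_of_eq ?_)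
  rw [← Finset.prod_pow]
  refine Finset.prod_congr rfl fun i _ => ?_
  rw [EuclideanSpace.norm_sq_eq]
  simp [hv]

/-- A row with a single entry. -/
theorem det_single {k : ℕ} (M : Matrix (Fin (k + 1)) (Fin (k + 1)) ℝ) (r q : Fin (k + 1))
    (h : ∀ t, t ≠ q → M r t = 0) :
    |M.det| = |M r q| * |(M.submatrix r.succAbove q.succAbove).det| := by
  rw [Matrix.det_succ_row M r, Finset.sum_eq_single q]
  · rw [abs_mul, abs_mul, abs_pow, abs_neg, abs_one, one_pow, one_mul]
  · intro t _ ht
    rw [h t ht]; ring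
  · intro hq; exact absurd (Finset.mem_univ q) hq

/-- The matrix after merging the columns `p` and `q` through row `r`. -/
noncomputable def merged {k : ℕ} (M : Matrix (Fin (k + 1)) (Fin (k + 1)) ℝ) (r p q : Fin (k + 1))
    (c d : ℝ) : Matrix (Fin k) (Fin k) ℝ :=
  Matrix.of fun r' t' => if q.succAbove t' = p then c * M (r.succAbove r') p
    + d * M (r.succAbove r') q else M (r.succAbove r') (q.succAbove t')

theorem det_merge {k : ℕ} (M : Matrix (Fin (k + 1)) (Fin (k + 1)) ℝ) (r p q : Fin (k + 1))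
    (hpq : p ≠ q) (x y F : ℝ) (hy : 0 < y) (hF : 0 < F) (hp : M r p = x) (hq : M r q = -y)
    (h : ∀ t, t ≠ p → t ≠ q → M r t = 0) :
    |M.det| = F * |(merged M r p q (y / F) (x / F)).det| := by
  set A := M.updateCol p ((y / F) • (fun i => M i p) + (x / F) • (fun i => M i q)) with hA
  have h1 : A.det = (y / F) * M.det := by
    rw [hA, Matrix.det_updateCol_add, Matrix.det_updateCol_smul, Matrix.det_updateCol_smul]
    have e1 : M.updateCol p (fun i => M i p) = M := by
      ext i j
      by_cases hj : j = p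
      · subst hj; simp
      · simp [Matrix.updateCol_ne hj]
    have e2 : (M.updateCol p (fun i => M i q)).det = 0 := by
      refine Matrix.det_zero_of_column_eq hpq ?_
      intro i
      rw [Matrix.updateCol_self, Matrix.updateCol_ne hpq.symm]
    rw [e1, e2]; ring
  have hAp : ∀ i, A i p = (y / F) * M i p + (x / F) * M i q := by
    intro i; rw [hA, Matrix.updateCol_self]; rfl
  have hAn : ∀ i t, t ≠ p → A i t = M i t := by
    intro i t ht; rw [hA, Matrix.updateCol_ne ht]
  have h2 : |A.det| = |A r q| * |(A.submatrix r.succAbove q.succAbove).det| := by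
    refine det_single A r q ?_
    intro t ht
    by_cases htp : t = p
    · rw [htp, hAp, hp, hq]; ring
    · rw [hAn r t htp]; exact h t htp ht
  have h3 : A.submatrix r.succAbove q.succAbove = merged M r p q (y / F) (x / F) := by
    ext i t
    rw [Matrix.submatrix_apply, merged, Matrix.of_apply]
    split_ifs with hh
    · rw [hh, hAp]
    · rw [hAn _ _ hh]
  rw [h3, hAn r q hpq.symm, hq, h1, abs_mul, abs_neg, abs_of_pos hy, abs_of_pos (div_pos hy hF)] at h2
  have : y / F * |M.det| = y / F * (F * |(merged M r p q (y / F) (x / F)).det|) := by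
    rw [h2]; field_simp
  exact mul_left_cancel₀ (div_pos hy hF).ne' this

/-- `1 + 1/√2`. -/
noncomputable def P : ℝ := 1 + 1 / √2

theorem P_bounds : 17 / 10 ≤ P ∧ P ≤ 171 / 100 ∧ 3 / 2 ≤ P := by
  have h2 : (√2) ^ 2 = 2 := Real.sq_sqrt (by norm_num)
  have h0 : 0 < √2 := Real.sqrt_pos.mpr (by norm_num)
  have hP : (P - 1) * √2 = 1 := by unfold P; field_simp; ring
  have hP1 : 0 < P - 1 := by unfold P; simp; 
  have hsq : (P - 1) ^ 2 = 1 / 2 := by
    have : ((P - 1) * √2) ^ 2 = 1 := by rw [hP]; norm_num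
    rw [mul_pow, h2] at this; linarith
  refine ⟨?_, ?_, ?_⟩ <;> nlinarith

/-- Weights of merged columns: the support of a merged column `t` is `{v : U v t ≠ 0}`. -/
structure Good {V : Type} {k : ℕ} (U : V → Fin k → ℝ) : Prop where
  nonneg : ∀ v t, 0 ≤ U v t
  le_one : ∀ v t, U v t ≤ 1
  pair : ∀ v w t, v ≠ w → U v t + U w t ≤ P
  disj : ∀ v s t, s ≠ t → U v s = 0 ∨ U v t = 0

/-- Merged weights. -/
noncomputable def mergedU {V : Type} {k : ℕ} (U : V → Fin (k + 1) → ℝ) (p q : Fin (k + 1))
    (c d : ℝ) : V → Fin k → ℝ :=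
  fun v t' => if q.succAbove t' = p then c * U v p + d * U v q else U v (q.succAbove t')

theorem Good.minor {V : Type} {k : ℕ} {U : V → Fin (k + 1) → ℝ} (hU : Good U) (q : Fin (k + 1)) :
    Good (fun v t' => U v (q.succAbove t')) where
  nonneg v t := hU.nonneg v _
  le_one v t := hU.le_one v _
  pair v w t h := hU.pair v w _ h
  disj v s t h := hU.disj v _ _ (fun e => h (q.succAbove_right_injective e))

theorem Good.merge {V : Type} {k : ℕ} {U : V → Fin (k + 1) → ℝ} (hU : Good U)
    {p q : Fin (k + 1)} (hpq : p ≠ q) {c d : ℝ} (hc : 0 ≤ c) (hc' : c ≤ P - 1) (hd : 0 ≤ d)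
    (hd' : d ≤ 1) : Good (mergedU U p q c d) := by
  obtain ⟨hP0, hP1, hP2⟩ := P_bounds
  have key : ∀ v, (U v q = 0 ∧ 0 ≤ U v p ∧ U v p ≤ 1) ∨ (U v p = 0 ∧ 0 ≤ U v q ∧ U v q ≤ 1) := by
    intro v
    rcases hU.disj v p q hpq with h | h
    · exact Or.inr ⟨h, hU.nonneg v q, hU.le_one v q⟩
    · exact Or.inl ⟨h, hU.nonneg v p, hU.le_one v p⟩
  refine ⟨?_, ?_, ?_, ?_⟩
  · intro v t
    unfold mergedU
    split_ifs
    · have := hU.nonneg v p; have := hU.nonneg v q; positivity
    · exact hU.nonneg _ _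
  · intro v t
    unfold mergedU
    split_ifs
    · rcases key v with ⟨h, h1, h2⟩ | ⟨h, h1, h2⟩
      · rw [h]; nlinarith
      · rw [h]; nlinarith
    · exact hU.le_one _ _
  · intro v w t hvw
    unfold mergedU
    split_ifs
    · have hp := hU.pair v w p hvw
      have hq := hU.pair v w q hvw
      rcases key v with ⟨h, h1, h2⟩ | ⟨h, h1, h2⟩ <;> rcases key w with ⟨g, g1, g2⟩ | ⟨g, g1, g2⟩
      · rw [h, g]; nlinarith
      · rw [h, g]; nlinarith
      · rw [h, g]; nlinarith
      · rw [h, g]; nlinarith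
    · exact hU.pair _ _ _ hvw
  · intro v s t hst
    have hne : q.succAbove s ≠ q.succAbove t := fun e => hst (q.succAbove_right_injective e)
    unfold mergedU
    by_cases hs : q.succAbove s = p
    · have ht : q.succAbove t ≠ p := fun e => hne (hs.trans e.symm)
      rw [if_pos hs, if_neg ht]
      rcases hU.disj v p (q.succAbove t) ht.symm with h | h
      · rcases hU.disj v q (q.succAbove t) (q.succAbove_ne t).symm with h' | h'
        · left; rw [h, h']; ring
        · right; exact h'
      · right; exact h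
    · by_cases ht : q.succAbove t = p
      · rw [if_neg hs, if_pos ht]
        rcases hU.disj v p (q.succAbove s) (fun e => hs e.symm) with h | h
        · rcases hU.disj v q (q.succAbove s) (q.succAbove_ne s).symm with h' | h'
          · right; rw [h, h']; ring
          · left; exact h'
        · left; exact h
      · rw [if_neg hs, if_neg ht]
        exact hU.disj v _ _ hne

/-- The three kinds of rows. -/
def RowOK {V : Type} {k : ℕ} (U : V → Fin k → ℝ) (m : Fin k → ℝ) (w : ℝ) : Prop :=
  (∃ i, (∀ t, m t = U i t) ∧ w = 1) ∨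
  (∃ i j, i ≠ j ∧ (∀ t, m t = 2 * U i t - U j t) ∧ w = 2) ∨
  (∃ i j l, i ≠ j ∧ i ≠ l ∧ j ≠ l ∧ (∀ t, m t = U i t + U j t - U l t) ∧ w = √3)

theorem RowOK.pos {V : Type} {k : ℕ} {U : V → Fin k → ℝ} {m : Fin k → ℝ} {w : ℝ}
    (h : RowOK U m w) : 0 < w := by
  rcases h with ⟨_, _, rfl⟩ | ⟨_, _, _, _, rfl⟩ | ⟨_, _, _, _, _, _, _, rfl⟩
  · norm_num
  · norm_num
  · exact Real.sqrt_pos.mpr (by norm_num)

theorem RowOK.minor {V : Type} {k : ℕ} {U : V → Fin (k + 1) → ℝ} {m : Fin (k + 1) → ℝ} {w : ℝ}
    (h : RowOK U m w) (q : Fin (k + 1)) :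
    RowOK (fun v t' => U v (q.succAbove t')) (fun t' => m (q.succAbove t')) w := by
  rcases h with ⟨i, h, rfl⟩ | ⟨i, j, hij, h, rfl⟩ | ⟨i, j, l, hij, hil, hjl, h, rfl⟩
  · exact Or.inl ⟨i, fun t => h _, rfl⟩
  · exact Or.inr (Or.inl ⟨i, j, hij, fun t => h _, rfl⟩)
  · exact Or.inr (Or.inr ⟨i, j, l, hij, hil, hjl, fun t => h _, rfl⟩)

theorem RowOK.merge {V : Type} {k : ℕ} {U : V → Fin (k + 1) → ℝ} {m : Fin (k + 1) → ℝ} {w : ℝ}
    (h : RowOK U m w) (p q : Fin (k + 1)) (c d : ℝ) :
    RowOK (mergedU U p q c d) (fun t' => if q.succAbove t' = p then c * m p + d * m q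
      else m (q.succAbove t')) w := by
  rcases h with ⟨i, h, rfl⟩ | ⟨i, j, hij, h, rfl⟩ | ⟨i, j, l, hij, hil, hjl, h, rfl⟩
  · refine Or.inl ⟨i, fun t => ?_, rfl⟩
    unfold mergedU
    dsimp only
    by_cases ht : q.succAbove t = p
    · rw [if_pos ht, if_pos ht, h, h]
    · rw [if_neg ht, if_neg ht, h]
  · refine Or.inr (Or.inl ⟨i, j, hij, fun t => ?_, rfl⟩)
    unfold mergedU
    dsimp only
    by_cases ht : q.succAbove t = p
    · rw [if_pos ht, if_pos ht, if_pos ht, h, h]; ring
    · rw [if_neg ht, if_neg ht, if_neg ht, h]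
  · refine Or.inr (Or.inr ⟨i, j, l, hij, hil, hjl, fun t => ?_, rfl⟩)
    unfold mergedU
    dsimp only
    by_cases ht : q.succAbove t = p
    · rw [if_pos ht, if_pos ht, if_pos ht, if_pos ht, h, h]; ring
    · rw [if_neg ht, if_neg ht, if_neg ht, if_neg ht, h]

/-- every column index `v` is in the support of at most one merged column -/
theorem Good.supp {V : Type} {k : ℕ} {U : V → Fin (k + 1) → ℝ} (hU : Good U) (v : V) :
    ∃ p, ∀ t, t ≠ p → U v t = 0 := by
  by_cases h : ∃ p, U v p ≠ 0
  · obtain ⟨p, hp⟩ := h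
    refine ⟨p, fun t ht => ?_⟩
    rcases hU.disj v t p ht with h | h
    · exact h
    · exact absurd h hp
  · exact ⟨0, fun t _ => by by_contra hne; exact h ⟨t, hne⟩⟩


/-- A row supported on one merged column has entry at most `w` there; a row of type `(1,1,-1)`
whose squared norm is larger than `3` has the form `x e_p - y e_q` with `y ≤ x/√2`. -/
theorem three_row {V : Type} {k : ℕ} {U : V → Fin (k + 1) → ℝ} (hU : Good U) {i j l : V}
    (hij : i ≠ j) (hil : i ≠ l) (hjl : j ≠ l) (m : Fin (k + 1) → ℝ)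
    (hm : ∀ t, m t = U i t + U j t - U l t) :
    ∑ t, m t ^ 2 ≤ 3 ∨ ∃ p q, p ≠ q ∧ ∃ x y, m p = x ∧ m q = -y ∧ (∀ t, t ≠ p → t ≠ q → m t = 0) ∧
      0 < y ∧ 0 < x ∧ x ≤ √3 ∧ y ≤ (P - 1) * x := by
  obtain ⟨hP0, hP1, hP2⟩ := P_bounds
  obtain ⟨a, ha⟩ := hU.supp i
  obtain ⟨b, hb⟩ := hU.supp j
  obtain ⟨c, hc⟩ := hU.supp l
  have i0 := hU.nonneg i; have i1 := hU.le_one i
  have j0 := hU.nonneg j; have j1 := hU.le_one j
  have l0 := hU.nonneg l; have l1 := hU.le_one l
  have hsum1 : ∀ p : Fin (k + 1), (∀ t, t ≠ p → m t = 0) → ∑ t, m t ^ 2 = m p ^ 2 := by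
    intro p hp
    refine Finset.sum_eq_single p (fun t _ ht => by rw [hp t ht]; ring) (fun h => absurd (Finset.mem_univ p) h)
  have hsum2 : ∀ p q : Fin (k + 1), p ≠ q → (∀ t, t ≠ p → t ≠ q → m t = 0) →
      ∑ t, m t ^ 2 = m p ^ 2 + m q ^ 2 := by
    intro p q hpq hp
    refine Finset.sum_eq_add p q hpq ?_ (fun h => absurd (Finset.mem_univ p) h)
      (fun h => absurd (Finset.mem_univ q) h)
    intro t _ ht
    rw [hp t ht.1 ht.2]; ring
  by_cases hab : a = b
  · subst hab
    by_cases hac : a = c
    · subst hac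
      left
      rw [hsum1 a (fun t ht => by rw [hm, ha t ht, hb t ht, hc t ht]; ring), hm]
      have h1 := hU.pair i j a hij
      nlinarith [i0 a, j0 a, l0 a, l1 a]
    · have hma : m a = U i a + U j a := by rw [hm, hc a hac]; ring
      have hmc : m c = - U l c := by rw [hm, ha c (Ne.symm hac), hb c (Ne.symm hac)]; ring
      have hz : ∀ t, t ≠ a → t ≠ c → m t = 0 := fun t h1 h2 => by
        rw [hm, ha t h1, hb t h1, hc t h2]; ring
      by_cases hbig : ∑ t, m t ^ 2 ≤ 3
      · exact Or.inl hbig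
      right
      rw [hsum2 a c hac hz, hma, hmc] at hbig
      have hx1 := hU.pair i j a hij
      have hx0 : 0 ≤ U i a + U j a := add_nonneg (i0 a) (j0 a)
      have hs3 : (17321 / 10000 : ℝ) ≤ √3 + 1/1000 := by
        have : (1.7311 : ℝ) ≤ √3 := Real.le_sqrt_of_sq_le (by norm_num)
        linarith
      have hy1 := l1 c
      have hy0 := l0 c
      have hx2 : 2 < (U i a + U j a) ^ 2 := by nlinarith
      have hPP : (P - 1) ^ 2 = 1 / 2 := by
        unfold P
        have h2 : (√2) ^ 2 = 2 := Real.sq_sqrt (by norm_num)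
        have : (1 + 1 / √2 - 1) ^ 2 = 1 / (√2) ^ 2 := by ring
        rw [this, h2]
      refine ⟨a, c, hac, U i a + U j a, U l c, hma, hmc, hz, ?_, ?_, ?_, ?_⟩
      · by_contra h0
        have : U l c = 0 := le_antisymm (not_lt.mp h0) hy0
        rw [this] at hbig
        nlinarith
      · nlinarith
      · have : (1.7311 : ℝ) ≤ √3 := Real.le_sqrt_of_sq_le (by norm_num)
        linarith
      · have h3 : 1 ≤ ((P - 1) * (U i a + U j a)) ^ 2 := by
          rw [mul_pow, hPP]; linarith
        have h4 : 0 ≤ (P - 1) * (U i a + U j a) := mul_nonneg (by linarith) hx0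
        have h5 : 1 ≤ (P - 1) * (U i a + U j a) := by
          by_contra h6
          push Not at h6
          nlinarith
        linarith
  · left
    by_cases hac : a = c
    · subst hac
      rw [hsum2 a b hab (fun t h1 h2 => by rw [hm, ha t h1, hb t h2, hc t h1]; ring), hm, hm,
        hb a hab, ha b (Ne.symm hab), hc b (Ne.symm hab)]
      nlinarith [i0 a, i1 a, l0 a, l1 a, j0 b, j1 b]
    · by_cases hbc : b = c
      · subst hbc
        rw [hsum2 a b hab (fun t h1 h2 => by rw [hm, ha t h1, hb t h2, hc t h2]; ring), hm, hm,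
          hb a hab, ha b (Ne.symm hab), hc a hac]
        nlinarith [i0 a, i1 a, l0 b, l1 b, j0 b, j1 b]
      · have hz : ∀ t, m t ^ 2 = (if t = a then U i a ^ 2 else 0) + (if t = b then U j b ^ 2 else 0)
            + (if t = c then U l c ^ 2 else 0) := by
          intro t
          rw [hm]
          by_cases h1 : t = a
          · subst h1
            rw [if_pos rfl, if_neg hab, if_neg hac, hb t hab, hc t hac]; ring
          · by_cases h2 : t = b
            · subst h2
              rw [if_neg h1, if_pos rfl, if_neg hbc, ha t h1, hc t hbc]; ring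
            · by_cases h3 : t = c
              · subst h3
                rw [if_neg h1, if_neg h2, if_pos rfl, ha t h1, hb t h2]; ring
              · rw [if_neg h1, if_neg h2, if_neg h3, ha t h1, hb t h2, hc t h3]; ring
        rw [Finset.sum_congr rfl (fun t _ => hz t), Finset.sum_add_distrib, Finset.sum_add_distrib,
          Finset.sum_ite_eq', Finset.sum_ite_eq', Finset.sum_ite_eq']
        simp only [Finset.mem_univ, if_true]
        nlinarith [i0 a, i1 a, l0 c, l1 c, j0 b, j1 b]

/-- Main lemma. -/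
theorem main {V : Type} : ∀ (k : ℕ) (U : V → Fin k → ℝ) (M : Matrix (Fin k) (Fin k) ℝ)
    (w : Fin k → ℝ), Good U → (∀ r, RowOK U (M r) (w r)) → |M.det| ≤ ∏ r, w r := by
  intro k
  induction k with
  | zero => intro U M w _ _; simp
  | succ k ih =>
    intro U M w hU hrow
    obtain ⟨hP0, hP1, hP2⟩ := P_bounds
    have hwpos : ∀ r, 0 < w r := fun r => (hrow r).pos
    -- merging step
    have hmerge : ∀ (r p q : Fin (k + 1)) (x y : ℝ), p ≠ q → M r p = x → M r q = -y →
        (∀ t, t ≠ p → t ≠ q → M r t = 0) → 0 < y → 0 < x → x ≤ w r → ∀ F, 0 < F → F ≤ w r →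
        x ≤ F → y ≤ (P - 1) * F → |M.det| ≤ ∏ r, w r := by
      intro r p q x y hpq hp hq hz hy hx hxw F hF hFw hxF hyF
      rw [det_merge M r p q hpq x y F hy hF hp hq hz, Fin.prod_univ_succAbove w r]
      refine mul_le_mul hFw ?_ (abs_nonneg _) (hwpos r).le
      refine ih (mergedU U p q (y / F) (x / F)) _ (fun r' => w (r.succAbove r')) ?_ ?_
      · refine hU.merge hpq (div_nonneg hy.le hF.le) ?_ (div_nonneg hx.le hF.le) ?_
        · rw [div_le_iff₀ hF]; exact hyF
        · rw [div_le_one hF]; exact hxF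
      · intro r'
        exact (hrow (r.succAbove r')).merge p q (y / F) (x / F)
    have hsingle : ∀ (r q : Fin (k + 1)), (∀ t, t ≠ q → M r t = 0) → |M r q| ≤ w r →
        |M.det| ≤ ∏ r, w r := by
      intro r q hz hle
      rw [det_single M r q hz, Fin.prod_univ_succAbove w r]
      refine mul_le_mul hle ?_ (abs_nonneg _) (hwpos r).le
      refine ih (fun v t' => U v (q.succAbove t')) _ (fun r' => w (r.succAbove r')) (hU.minor q) ?_
      intro r'
      exact (hrow (r.succAbove r')).minor q
    by_cases hred : ∃ r, ¬ (∑ t, M r t ^ 2 ≤ w r ^ 2)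
    · obtain ⟨r, hr⟩ := hred
      rcases hrow r with ⟨i, h, hw⟩ | ⟨i, j, hij, h, hw⟩ | ⟨i, j, l, hij, hil, hjl, h, hw⟩
      · exfalso
        apply hr
        obtain ⟨a, ha⟩ := hU.supp i
        rw [Finset.sum_eq_single a (fun t _ ht => by rw [h, ha t ht]; ring)
          (fun h => absurd (Finset.mem_univ a) h), h, hw]
        have := hU.nonneg i a
        have := hU.le_one i a
        nlinarith
      · obtain ⟨a, ha⟩ := hU.supp i
        obtain ⟨b, hb⟩ := hU.supp j
        have i0 := hU.nonneg i a; have i1 := hU.le_one i a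
        have j0 := hU.nonneg j b; have j1 := hU.le_one j b
        by_cases hab : a = b
        · subst hab
          refine hsingle r a (fun t ht => by rw [h, ha t ht, hb t ht]; ring) ?_
          rw [h, hw, abs_le]
          constructor <;> linarith
        · have hMa : M r a = 2 * U i a := by rw [h, hb a hab]; ring
          have hMb : M r b = - U j b := by rw [h, ha b (Ne.symm hab)]; ring
          have hz : ∀ t, t ≠ a → t ≠ b → M r t = 0 := fun t h1 h2 => by
            rw [h, ha t h1, hb t h2]; ring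
          by_cases hi : U i a = 0
          · refine hsingle r b (fun t ht => ?_) ?_
            · by_cases hta : t = a
              · rw [hta, hMa, hi]; ring
              · exact hz t hta ht
            · rw [hMb, abs_neg, abs_of_nonneg j0, hw]; linarith
          · by_cases hj : U j b = 0
            · refine hsingle r a (fun t ht => ?_) ?_
              · by_cases htb : t = b
                · rw [htb, hMb, hj]; ring
                · exact hz t ht htb
              · rw [hMa, abs_of_nonneg (by linarith), hw]; linarith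
            · refine hmerge r a b (2 * U i a) (U j b) hab hMa hMb hz
                (lt_of_le_of_ne j0 (Ne.symm hj))
                (by have := lt_of_le_of_ne i0 (Ne.symm hi); linarith) (by rw [hw]; linarith)
                2 (by norm_num) (by rw [hw]) (by linarith) (by linarith)
      · rcases three_row hU hij hil hjl (M r) h with h3 | ⟨p, q, hpq, x, y, hp, hq, hz, hy, hx, hx3, hyx⟩
        · exfalso
          apply hr
          rw [hw, Real.sq_sqrt (by norm_num)]
          exact h3
        · exact hmerge r p q x y hpq hp hq hz hy hx (by rw [hw]; exact hx3) x hx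
            (by rw [hw]; exact hx3) le_rfl hyx
    · push Not at hred
      have h1 := hadamard M
      have h2 : ∏ r, ∑ t, M r t ^ 2 ≤ ∏ r, w r ^ 2 :=
        Finset.prod_le_prod (fun r _ => Finset.sum_nonneg fun t _ => sq_nonneg _)
          (fun r _ => hred r)
      rw [Finset.prod_pow] at h2
      have h3 : M.det ^ 2 ≤ (∏ r, w r) ^ 2 := h1.trans h2
      exact abs_le_of_sq_le_sq h3 (Finset.prod_nonneg fun r _ => (hwpos r).le)

end Pool.Agent.AdmDet
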