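import Pool.Agent.AdmDet.Main

/-!
# Equality `|det| = 2^k` for matrices with rows `2 e_i - e_j`
-/

set_option linter.all false

namespace Pool.Agent.AdmDet

open Matrix

theorem supp_of_pos {V : Type} {k : ℕ} {U : V → Fin (k + 1) → ℝ} (hU : Good U) {v : V}
    {p : Fin (k + 1)} (hp : 0 < U v p) : ∀ t, t ≠ p → U v t = 0 := by
  intro t ht
  rcases hU.disj v t p ht with h | h
  · exact h
  · exact absurd h hp.ne'

/-- If every vertex used by the rows lies in a merged column, the bound is strict. -/
theorem strict {V : Type} : ∀ (k : ℕ) (U : V → Fin (k + 1) → ℝ)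
    (M : Matrix (Fin (k + 1)) (Fin (k + 1)) ℝ) (i j : Fin (k + 1) → V), Good U →
    (∀ r, i r ≠ j r) → (∀ r t, M r t = 2 * U (i r) t - U (j r) t) →
    (∀ r, ∃ t, 0 < U (i r) t) → (∀ r, ∃ t, 0 < U (j r) t) → |M.det| < 2 ^ (k + 1) := by
  intro k
  induction k with
  | zero =>
    intro U M i j hU hij hM hi hj
    obtain ⟨a, ha⟩ := hi 0
    obtain ⟨b, hb⟩ := hj 0
    have ha0 : a = 0 := Fin.fin_one_eq_zero a
    have hb0 : b = 0 := Fin.fin_one_eq_zero b
    subst ha0; subst hb0
    have i1 := hU.le_one (i 0) 0
    have j1 := hU.le_one (j 0) 0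
    have hd : M.det = M 0 0 := Matrix.det_fin_one M
    rw [hd, hM 0 0, abs_lt]
    constructor <;> norm_num <;> linarith
  | succ k ih =>
    intro U M i j hU hij hM hi hj
    obtain ⟨a, ha⟩ := hi 0
    obtain ⟨b, hb⟩ := hj 0
    have sa := supp_of_pos hU ha
    have sb := supp_of_pos hU hb
    have i1 := hU.le_one (i 0) a
    have j1 := hU.le_one (j 0) b
    by_cases hab : a = b
    · subst hab
      rw [det_single M 0 a (fun t ht => by rw [hM, sa t ht, sb t ht]; ring)]
      have h1 : |M 0 a| < 2 := by
        rw [hM, abs_lt]
        constructor <;> linarith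
      have h2 : |(M.submatrix (Fin.succAbove 0) a.succAbove).det| ≤ 2 ^ (k + 1) := by
        have := main (k + 1) (fun v t' => U v (a.succAbove t'))
          (M.submatrix (Fin.succAbove 0) a.succAbove) (fun _ => 2) (hU.minor a)
          (fun r => Or.inr (Or.inl ⟨i (Fin.succAbove 0 r), j (Fin.succAbove 0 r), hij _,
            fun t => hM _ _, rfl⟩))
        simpa using this
      calc |M 0 a| * |(M.submatrix (Fin.succAbove 0) a.succAbove).det|
          ≤ |M 0 a| * 2 ^ (k + 1) := mul_le_mul_of_nonneg_left h2 (abs_nonneg _)
        _ < 2 * 2 ^ (k + 1) := mul_lt_mul_of_pos_right h1 (by positivity)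
        _ = 2 ^ (k + 1 + 1) := by ring
    · have hp : M 0 a = 2 * U (i 0) a := by rw [hM, sb a hab]; ring
      have hq : M 0 b = - U (j 0) b := by rw [hM, sa b (Ne.symm hab)]; ring
      have hz : ∀ t, t ≠ a → t ≠ b → M 0 t = 0 := fun t h1 h2 => by
        rw [hM, sa t h1, sb t h2]; ring
      rw [det_merge M 0 a b hab _ _ 2 hb (by norm_num) hp hq hz]
      obtain ⟨hP0, hP1, hP2⟩ := P_bounds
      have hc : 0 < U (j 0) b / 2 := by linarith
      have hd : 0 < 2 * U (i 0) a / 2 := by linarith
      have hcov : ∀ v, (∃ t, 0 < U v t) → ∃ t', 0 < mergedU U a b (U (j 0) b / 2)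
          (2 * U (i 0) a / 2) v t' := by
        rintro v ⟨t, ht⟩
        have hva := hU.nonneg v a
        have hvb := hU.nonneg v b
        by_cases hta : t = a
        · obtain ⟨s, hs⟩ := Fin.exists_succAbove_eq hab
          refine ⟨s, ?_⟩
          unfold mergedU
          rw [if_pos hs]
          have : 0 < U v a := hta ▸ ht
          have := mul_pos hc this
          have := mul_nonneg hd.le hvb
          linarith
        · by_cases htb : t = b
          · obtain ⟨s, hs⟩ := Fin.exists_succAbove_eq hab
            refine ⟨s, ?_⟩
            unfold mergedU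
            rw [if_pos hs]
            have : 0 < U v b := htb ▸ ht
            have := mul_pos hd this
            have := mul_nonneg hc.le hva
            linarith
          · obtain ⟨s, hs⟩ := Fin.exists_succAbove_eq htb
            refine ⟨s, ?_⟩
            unfold mergedU
            rw [if_neg (by rw [hs]; exact hta), hs]
            exact ht
      have h := ih (mergedU U a b (U (j 0) b / 2) (2 * U (i 0) a / 2))
        (merged M 0 a b (U (j 0) b / 2) (2 * U (i 0) a / 2))
        (fun r => i (Fin.succAbove 0 r)) (fun r => j (Fin.succAbove 0 r))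
        (hU.merge hab hc.le (by linarith) hd.le (by linarith)) (fun r => hij _) ?_
        (fun r => hcov _ (hi _)) (fun r => hcov _ (hj _))
      · calc 2 * |(merged M 0 a b (U (j 0) b / 2) (2 * U (i 0) a / 2)).det|
            < 2 * 2 ^ (k + 1) := mul_lt_mul_of_pos_left h (by norm_num)
          _ = 2 ^ (k + 1 + 1) := by ring
      · intro r t
        unfold merged mergedU
        rw [Matrix.of_apply]
        by_cases ht : b.succAbove t = a
        · rw [if_pos ht, if_pos ht, if_pos ht, hM, hM]; ring
        · rw [if_neg ht, if_neg ht, if_neg ht, hM]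

/-- extension of a permutation by the new last element `r` -/
def ext {k : ℕ} (r : Fin (k + 1)) (σ : Equiv.Perm (Fin k)) : Equiv.Perm (Fin (k + 1)) :=
  (finSuccEquiv' (Fin.last k)).trans ((Equiv.optionCongr σ).trans (finSuccEquiv' r).symm)

theorem ext_last {k : ℕ} (r : Fin (k + 1)) (σ : Equiv.Perm (Fin k)) :
    ext r σ (Fin.last k) = r := by
  simp [ext]

theorem ext_castSucc {k : ℕ} (r : Fin (k + 1)) (σ : Equiv.Perm (Fin k)) (s : Fin k) :
    ext r σ s.castSucc = r.succAbove (σ s) := by
  have : finSuccEquiv' (Fin.last k) s.castSucc = some s := by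
    rw [← Fin.succAbove_last]; exact finSuccEquiv'_succAbove _ _
  simp only [ext, Equiv.trans_apply, this, Equiv.optionCongr_apply, Option.map_some,
    finSuccEquiv'_symm_some]

theorem equality {V : Type} [DecidableEq V] : ∀ (k : ℕ) (e : Fin k → V)
    (M : Matrix (Fin k) (Fin k) ℝ) (i j : Fin k → V), Function.Injective e →
    (∀ r, i r ≠ j r) → (∀ r t, M r t = 2 * (if i r = e t then (1 : ℝ) else 0)
      - (if j r = e t then 1 else 0)) → |M.det| = 2 ^ k →
    ∃ σ τ : Equiv.Perm (Fin k), (∀ r, M (σ r) (τ r) = 2) ∧ ∀ r t, t < r → M (σ r) (τ t) = 0 := by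
  intro k
  induction k with
  | zero =>
    intro e M i j _ _ _ _
    exact ⟨1, 1, fun r => r.elim0, fun r => r.elim0⟩
  | succ k ih =>
    intro e M i j he hij hM hdet
    obtain ⟨hP0, hP1, hP2⟩ := P_bounds
    have hgood : Good (fun (v : V) (t : Fin (k + 1)) => if v = e t then (1 : ℝ) else 0) := by
      refine ⟨?_, ?_, ?_, ?_⟩
      · intro v t; split_ifs <;> norm_num
      · intro v t; split_ifs <;> norm_num
      · intro v v' t h
        by_cases h1 : v = e t
        · have h2 : ¬ v' = e t := fun e => h (h1.trans e.symm)
          rw [if_pos h1, if_neg h2]; linarith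
        · rw [if_neg h1]
          split_ifs <;> linarith
      · intro v s t hst
        by_cases h1 : v = e s
        · right
          rw [if_neg]
          exact fun h2 => hst (he (h1.symm.trans h2))
        · left; rw [if_neg h1]
    have hminor : ∀ (r q : Fin (k + 1)), |(M.submatrix r.succAbove q.succAbove).det| ≤ 2 ^ k := by
      intro r q
      have := main k (fun v t' => if v = e (q.succAbove t') then (1 : ℝ) else 0)
        (M.submatrix r.succAbove q.succAbove) (fun _ => 2) (hgood.minor q)
        (fun s => Or.inr (Or.inl ⟨i (r.succAbove s), j (r.succAbove s), hij _,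
          fun t => hM _ _, rfl⟩))
      simpa using this
    by_cases hall : ∀ r, (∃ t, i r = e t) ∧ (∃ t, j r = e t)
    · exfalso
      have := strict k _ M i j hgood hij hM
        (fun r => by obtain ⟨t, ht⟩ := (hall r).1; exact ⟨t, by simp [ht]⟩)
        (fun r => by obtain ⟨t, ht⟩ := (hall r).2; exact ⟨t, by simp [ht]⟩)
      rw [hdet] at this
      exact lt_irrefl _ this
    · push Not at hall
      obtain ⟨r, hr⟩ := hall
      by_cases hi : ∃ p, i r = e p
      · obtain ⟨p, hp⟩ := hi
        have hj : ∀ t, j r ≠ e t := hr ⟨p, hp⟩
        have hz : ∀ t, t ≠ p → M r t = 0 := by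
          intro t ht
          rw [hM, if_neg (fun h => ht (he (h.symm.trans hp))), if_neg (hj t)]; ring
        have hrp : M r p = 2 := by
          rw [hM, if_pos hp, if_neg (hj p)]; ring
        have h1 := det_single M r p hz
        rw [hdet, hrp, abs_of_pos (by norm_num : (0:ℝ) < 2)] at h1
        have h2 : |(M.submatrix r.succAbove p.succAbove).det| = 2 ^ k := by
          have : (2:ℝ) * 2 ^ k = 2 * |(M.submatrix r.succAbove p.succAbove).det| := by
            rw [← h1]; ring
          linarith
        obtain ⟨σ, τ, hd, hu⟩ := ih (fun t => e (p.succAbove t))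
          (M.submatrix r.succAbove p.succAbove) (fun s => i (r.succAbove s))
          (fun s => j (r.succAbove s)) (fun a b h => p.succAbove_right_injective (he h))
          (fun s => hij _) (fun s t => hM _ _) h2
        refine ⟨ext r σ, ext p τ, ?_, ?_⟩
        · intro s
          induction s using Fin.lastCases with
          | last => rw [ext_last, ext_last, hrp]
          | cast s => rw [ext_castSucc, ext_castSucc]; exact hd s
        · intro s t hts
          induction s using Fin.lastCases with
          | last =>
            induction t using Fin.lastCases with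
            | last => exact absurd hts (lt_irrefl _)
            | cast t =>
              rw [ext_last, ext_castSucc]
              exact hz _ (p.succAbove_ne _)
          | cast s =>
            induction t using Fin.lastCases with
            | last => exact absurd hts (not_lt.mpr (Fin.le_last _))
            | cast t =>
              rw [ext_castSucc, ext_castSucc]
              exact hu s t (by simpa using hts)
      · exfalso
        push Not at hi
        by_cases hj : ∃ q, j r = e q
        · obtain ⟨q, hq⟩ := hj
          have hz : ∀ t, t ≠ q → M r t = 0 := by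
            intro t ht
            rw [hM, if_neg (hi t), if_neg (fun h => ht (he (h.symm.trans hq)))]; ring
          have hrq : M r q = -1 := by
            rw [hM, if_neg (hi q), if_pos hq]; ring
          have h1 := det_single M r q hz
          rw [hdet, hrq, abs_neg, abs_one, one_mul] at h1
          have h2 := hminor r q
          rw [← h1] at h2
          have h3 : (2:ℝ) ^ (k + 1) = 2 ^ k + 2 ^ k := by ring
          have h4 : (0:ℝ) < 2 ^ k := by positivity
          linarith
        · push Not at hj
          have : M.det = 0 := Matrix.det_eq_zero_of_row_eq_zero r (fun t => by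
            rw [hM, if_neg (hi t), if_neg (hj t)]; ring)
          rw [this, abs_zero] at hdet
          have h4 : (0:ℝ) < 2 ^ (k + 1) := by positivity
          linarith

end Pool.Agent.AdmDet
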